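import Mathlib
import Pool.Agent.Helper5.NE.Stmts

/-! Packet P10 of MP_d99be0_an: selection of columns. -/

namespace Pool.Agent.Helper88.NE

open Pool.Agent.Helper5.NE
open scoped Topology
open Filter

theorem exists_seq (A : Set ℕ) (U : Ultrafilter ℕ) (hA : A ∈ U) (hU : (U : Filter ℕ) ≤ atTop)
    (T : X → X → ℂ) (hT : Good T) (P : Finset RW) :
    ∃ f : ℕ → ℕ × ℕ, (∀ n, (f n).2 ∈ A ∧ ∀ x ∈ P, ∀ y ∈ P,
      ‖T (y, (f n).2) (x, (f n).2) - lm U T y x‖ ≤ 1 / (((f n).1 : ℝ) + 1)) ∧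
    ∀ m n, m < n → (f m).1 < (f n).1 ∧ (f m).2 < (f n).2 ∧ ∀ x ∈ P, ∀ y ∈ P,
      ‖T (y, (f m).2) (x, (f n).2)‖ ≤ 1 / (((f n).1 : ℝ) + 1) ∧
      ‖T (y, (f n).2) (x, (f m).2)‖ ≤ 1 / (((f n).1 : ℝ) + 1) := by
  refine exists_seq_of_forall_finset_exists
    (fun q : ℕ × ℕ => q.2 ∈ A ∧ ∀ x ∈ P, ∀ y ∈ P,
      ‖T (y, q.2) (x, q.2) - lm U T y x‖ ≤ 1 / ((q.1 : ℝ) + 1))
    (fun q r : ℕ × ℕ => q.1 < r.1 ∧ q.2 < r.2 ∧ ∀ x ∈ P, ∀ y ∈ P,
      ‖T (y, q.2) (x, r.2)‖ ≤ 1 / ((r.1 : ℝ) + 1) ∧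
      ‖T (y, r.2) (x, q.2)‖ ≤ 1 / ((r.1 : ℝ) + 1)) ?_
  intro s _
  set j : ℕ := s.sup Prod.fst + 1 with hj
  have hj0 : (0 : ℝ) < 1 / ((j : ℝ) + 1) := by positivity
  have h1 : ∀ᶠ b in (U : Filter ℕ), b ∈ A := hA
  have h2 : ∀ᶠ b in (U : Filter ℕ), ∀ x ∈ P, ∀ y ∈ P,
      ‖T (y, b) (x, b) - lm U T y x‖ ≤ 1 / ((j : ℝ) + 1) := by
    rw [Filter.eventually_all_finset]
    intro x _
    rw [Filter.eventually_all_finset]
    intro y _
    have h3 := tendsto_lm U hT.bd y x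
    have h4 := h3.sub_const (lm U T y x)
    rw [sub_self] at h4
    have h5 := h4.norm
    rw [norm_zero] at h5
    exact (h5.eventually (gt_mem_nhds hj0)).mono fun b hb => le_of_lt hb
  have h3 : ∀ᶠ b in (U : Filter ℕ), ∀ q ∈ s, q.2 < b ∧ ∀ x ∈ P, ∀ y ∈ P,
      ‖T (y, q.2) (x, b)‖ ≤ 1 / ((j : ℝ) + 1) ∧
      ‖T (y, b) (x, q.2)‖ ≤ 1 / ((j : ℝ) + 1) := by
    rw [Filter.eventually_all_finset]
    intro q _
    refine ((eventually_gt_atTop q.2).filter_mono hU).and ?_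
    rw [Filter.eventually_all_finset]
    intro x _
    rw [Filter.eventually_all_finset]
    intro y _
    have h4 := ((hT.row (y, q.2) x).mono_left hU).norm
    have h5 := ((hT.col (x, q.2) y).mono_left hU).norm
    rw [norm_zero] at h4 h5
    filter_upwards [h4.eventually (gt_mem_nhds hj0), h5.eventually (gt_mem_nhds hj0)]
      with b hb hb'
    exact ⟨hb.le, hb'.le⟩
  obtain ⟨b, hb1, hb2, hb3⟩ := (h1.and (h2.and h3)).exists
  refine ⟨(j, b), ⟨hb1, hb2⟩, fun q hq => ⟨?_, (hb3 q hq).1, (hb3 q hq).2⟩⟩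
  have := Finset.le_sup (f := Prod.fst) hq
  show q.1 < j
  omega

/-- a numbering of the block indices -/
def enc {m : ℕ} {k : ℕ → ℕ} (p : BI m k) : ℕ := Nat.pair p.1 (Encodable.encode p.2)

theorem enc_inj {m : ℕ} {k : ℕ → ℕ} : Function.Injective (enc (m := m) (k := k)) := by
  rintro ⟨n, p⟩ ⟨n', p'⟩ h
  unfold enc at h
  rw [Nat.pair_eq_pair] at h
  obtain ⟨h1, h2⟩ := h
  simp only at h1 h2
  subst h1
  rw [Encodable.encode_injective h2]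

theorem le_enc {m : ℕ} {k : ℕ → ℕ} (p : BI m k) : p.1 ≤ enc p := Nat.left_le_pair _ _

theorem sel : SelStmt := by
  intro A U hA hU T hT P m k
  obtain ⟨f, hf1, hf2⟩ := exists_seq A U hA hU T hT P
  have hmono1 : StrictMono (fun n => (f n).1) := fun m n h => (hf2 m n h).1
  have hmono2 : StrictMono (fun n => (f n).2) := fun m n h => (hf2 m n h).2.1
  have hge : ∀ n, n ≤ (f n).1 := fun n => hmono1.le_apply
  have hbound : ∀ (n j : ℕ), n ≤ j → 1 / (((f j).1 : ℝ) + 1) ≤ 1 / ((n : ℝ) + 1) := by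
    intro n j h
    apply one_div_le_one_div_of_le (by positivity)
    have h1 : n ≤ (f j).1 := h.trans (hge j)
    have h2 : (n : ℝ) ≤ ((f j).1 : ℝ) := by exact_mod_cast h1
    linarith
  refine ⟨fun p => (f (enc p)).2, hmono2.injective.comp enc_inj, fun p => (hf1 _).1, ?_⟩
  intro n p p' x hx y hy
  by_cases h : p' = p
  · subst h
    rw [if_pos rfl]
    exact ((hf1 _).2 x hx y hy).trans (hbound n _ (le_enc (⟨n, p'⟩ : BI m k)))
  · rw [if_neg h, sub_zero]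
    have hne : enc (⟨n, p'⟩ : BI m k) ≠ enc (⟨n, p⟩ : BI m k) := by
      intro h2
      have h3 := enc_inj h2
      apply h
      simpa using h3
    rcases lt_or_gt_of_ne hne with h4 | h4
    · exact ((hf2 _ _ h4).2.2 x hx y hy).1.trans (hbound n _ (le_enc (⟨n, p⟩ : BI m k)))
    · exact ((hf2 _ _ h4).2.2 x hx y hy).2.trans (hbound n _ (le_enc (⟨n, p'⟩ : BI m k)))

end Pool.Agent.Helper88.NE
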